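import Pool.Agent.H44.LI.Refl

/-!
# Lipschitz involutions with disconnected fixed point set and short periodic geodesics

`X` is a compact metric space in which any two points are joined by a minimal geodesic and minimal
geodesics between points at distance less than `r` are unique (every closed Riemannian manifold).
`ClosedGeod X L`: there is a periodic geodesic of positive length at most `L`. `CovDim X n`: the
covering dimension is at most `n`.

1. Let `σ` be a `lam`-Lipschitz involution of `X` (not an isometry) and let `a`, `b` be two fixed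
   points of `σ` in different connected components of its fixed point set. Then there is a periodic
   geodesic of length at most `2 * lam ^ n` times the distance from `a` to `b`.
2. The same for a `lam`-Lipschitz involution of a Lipschitz retract `Y` of `X`, with the constant
   `2 * (lam * (α * β)) ^ n`, where `α` and `β` are the Lipschitz constants of the inclusion and of
   the retraction, and `n` is the dimension of `Y`.

Proof. Let `c` be a minimal geodesic from `a` to `b`. The closed curve `c` followed by the reverse
of `σ c` is mapped to itself by `σ` composed with a reflection of the circle which fixes the two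
points `a` and `b`. If there is no short periodic geodesic, Birkhoff shortening gives by induction
equivariant families of closed polygons over products of tripods, and with them an equivariant map
from the suspension of the sphere `S ^ n`, with the antipodal map on the factor `S ^ n`, to `X`
which takes one pole to `a` and the other one to `b`. Such a map cannot exist if `a` and `b` are
separated in the fixed point set, by dimension theory of `X` (an open cover adapted to the free
part) and a combinatorial version of the theorem of Borsuk and Ulam for suspensions.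
-/

set_option autoImplicit false

open Set Topology

namespace Pool.Agent.Results.MP_3eff7f_gt.DisconnectedFixedSet

open Pool.Agent.Y489.GE

/-- Points of a compact set in different components are separated by a partition into two closed
sets. -/
theorem separate {Y : Type} [MetricSpace Y] [CompactSpace Y] {F : Set Y} (hF : IsClosed F)
    {a b : Y} (ha : a ∈ F) (hb : b ∈ F) (hab : b ∉ connectedComponentIn F a) :
    ∃ P Q : Set Y, IsClosed P ∧ IsClosed Q ∧ Disjoint P Q ∧ P ∪ Q = F ∧ a ∈ P ∧ b ∈ Q := by
  have : CompactSpace F := isCompact_iff_compactSpace.1 hF.isCompact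
  have h1 : (⟨b, hb⟩ : F) ∉ connectedComponent (⟨a, ha⟩ : F) := by
    intro h
    apply hab
    rw [connectedComponentIn_eq_image ha]
    exact ⟨_, h, rfl⟩
  rw [connectedComponent_eq_iInter_isClopen] at h1
  simp only [mem_iInter, not_forall] at h1
  obtain ⟨⟨Z, hZ, haZ⟩, hbZ⟩ := h1
  refine ⟨(↑) '' Z, (↑) '' Zᶜ, hF.isClosedEmbedding_subtypeVal.isClosedMap _ hZ.1,
    hF.isClosedEmbedding_subtypeVal.isClosedMap _ hZ.compl.1, ?_, ?_, ⟨_, haZ, rfl⟩, ⟨_, hbZ, rfl⟩⟩
  · exact (disjoint_image_iff Subtype.val_injective).2 disjoint_compl_right
  · rw [← image_union, union_compl_self, image_univ, Subtype.range_coe]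

theorem result (X : Type) [MetricSpace X] [CompactSpace X] (r : ℝ) (hr : 0 < r)
    (hX : GeodSpace X) (hU : UniqGeod X r) :
    (∀ (n : ℕ) (lam : ℝ) (σ : X → X), 1 ≤ n → CovDim X n → (∀ x, σ (σ x) = x) →
      (∀ x y, dist (σ x) (σ y) ≤ lam * dist x y) →
      ∀ a b, σ a = a → σ b = b → b ∉ connectedComponentIn {x | σ x = x} a →
      ClosedGeod X (2 * lam ^ n * dist a b)) ∧
    ∀ (Y : Type) [MetricSpace Y] [CompactSpace Y] (n : ℕ) (α β lam : ℝ) (ι : Y → X) (ρ : X → Y)
      (σ : Y → Y), 1 ≤ n → CovDim Y n → 0 ≤ α → 0 ≤ β →
      (∀ x y, dist (ι x) (ι y) ≤ α * dist x y) → (∀ x y, dist (ρ x) (ρ y) ≤ β * dist x y) →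
      (∀ y, ρ (ι y) = y) → (∀ y, σ (σ y) = y) → (∀ x y, dist (σ x) (σ y) ≤ lam * dist x y) →
      ∀ a b, σ a = a → σ b = b → b ∉ connectedComponentIn {y | σ y = y} a →
      ClosedGeod X (2 * (lam * (α * β)) ^ n * dist (ι a) (ι b)) := by
  have key : ∀ (Y : Type) [MetricSpace Y] [CompactSpace Y] (n : ℕ) (α β lam : ℝ) (ι : Y → X)
      (ρ : X → Y) (σ : Y → Y), 1 ≤ n → CovDim Y n → 0 ≤ α → 0 ≤ β →
      (∀ x y, dist (ι x) (ι y) ≤ α * dist x y) → (∀ x y, dist (ρ x) (ρ y) ≤ β * dist x y) →
      (∀ y, ρ (ι y) = y) → (∀ y, σ (σ y) = y) → (∀ x y, dist (σ x) (σ y) ≤ lam * dist x y) →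
      ∀ a b, σ a = a → σ b = b → b ∉ connectedComponentIn {y | σ y = y} a →
      ClosedGeod X (2 * (lam * (α * β)) ^ n * dist (ι a) (ι b)) := by
    intro Y _ _ n α β lam ι ρ σ hn hdim hα hβ hι hρ hid hσ hL a b ha hb hab
    have hlam : 0 ≤ lam := by
      rcases eq_or_ne a b with h | h
      · subst h
        exact absurd (mem_connectedComponentIn (show a ∈ {y | σ y = y} from ha)) hab
      · have := hL a b
        rw [ha, hb] at this
        by_contra hl
        have := dist_pos.2 h
        nlinarith
    have hσc : Continuous σ :=
      (LipschitzWith.of_dist_le_mul (K := ⟨lam, hlam⟩) fun x y => hL x y).continuous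
    obtain ⟨P, Q, hP, hQ, hPQ, hF, haP, hbQ⟩ :=
      separate (isClosed_eq hσc continuous_id) ha hb hab
    exact Pool.Agent.H44.LI.closed_of_separated hr hX hU hα hβ hι hρ hid hn hdim hσ hL hP hQ hPQ
      hF haP hbQ
  refine ⟨?_, key⟩
  intro n lam σ hn hdim hσ hL a b ha hb hab
  have h := key X n 1 1 lam id id σ hn hdim zero_le_one zero_le_one (fun x y => by simp)
    (fun x y => by simp) (fun _ => rfl) hσ hL a b ha hb hab
  rw [mul_one, mul_one] at h
  exact h

end Pool.Agent.Results.MP_3eff7f_gt.DisconnectedFixedSet
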