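import Pool.Agent.H44.LI.Inv

/-!
# Short periodic geodesics on spaces with a free Lipschitz action of a finite group

`X` is a compact metric space in which any two points are joined by a minimal geodesic and minimal
geodesics between points at distance less than `r` are unique (every closed Riemannian manifold).
`ClosedGeod X L`: there is a periodic geodesic of positive length at most `L`. `CovDim X n`: the
covering dimension is at most `n`. Nothing is supposed to be an isometry.

1. Let `g` be a map of prime order `p` without fixed points such that all its iterates are
   `lam`-Lipschitz. Then for every point `x` there is a periodic geodesic of length at most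
   `p * lam ^ n` times the distance from `x` to `g x`.
2. Let a nontrivial finite group act freely on `X` by `lam`-Lipschitz maps, and let `p` be the least
   prime divisor of its order. Then there is a periodic geodesic of length at most
   `p * lam ^ n` times the diameter.
3. Let `σ` be a `lam`-Lipschitz involution for which there is a continuous odd map
   `u : X → ℝ ^ (d + 1)` without zeros, `u (σ x) = - u x`. Then for every `x` there is a periodic
   geodesic of length at most `2 * lam ^ d` times the distance from `x` to `σ x`; here the exponent
   does not depend on the dimension of `X`, only on the index of the involution.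

Proof. If there is no such geodesic, closed polygons are contracted by Birkhoff shortening, and
this gives by induction equivariant families of closed polygons over products of stars with `p`
legs, that is an equivariant map from a highly connected free complex of dimension `n + 1` to `X`,
which is impossible by a theorem of Dold (Borsuk-Ulam if `p = 2`).
-/

set_option autoImplicit false

open Set Topology

namespace Pool.Agent.Results.MP_3eff7f_gt.FreeLipschitzActions

open Pool.Agent.Y489.GE

theorem result (X : Type) [MetricSpace X] [CompactSpace X] (r : ℝ) (hr : 0 < r)
    (hX : GeodSpace X) (hU : UniqGeod X r) :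
    (∀ (n p : ℕ) (lam : ℝ) (g : X → X), CovDim X n → p.Prime → (∀ x, g^[p] x = x) →
      (∀ x, g x ≠ x) → (∀ k < p, ∀ x y, dist (g^[k] x) (g^[k] y) ≤ lam * dist x y) →
      ∀ x, ClosedGeod X (p * lam ^ n * dist x (g x))) ∧
    (∀ (n : ℕ) (lam : ℝ) (G : Type) [Group G] [Finite G] [Nontrivial G] [MulAction G X],
      Nonempty X → CovDim X n → (∀ g : G, g ≠ 1 → ∀ x : X, g • x ≠ x) →
      (∀ (g : G) (x y : X), dist (g • x) (g • y) ≤ lam * dist x y) →
      ClosedGeod X ((Nat.card G).minFac * lam ^ n * Metric.diam (univ : Set X))) ∧
    ∀ (d : ℕ) (lam : ℝ) (σ : X → X) (u : X → Fin (d + 1) → ℝ), (∀ x, σ (σ x) = x) →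
      (∀ x y, dist (σ x) (σ y) ≤ lam * dist x y) → Continuous u → (∀ x, u x ≠ 0) →
      (∀ x, u (σ x) = -u x) → ∀ x, ClosedGeod X (2 * lam ^ d * dist x (σ x)) := by
  refine ⟨?_, ?_, ?_⟩
  · intro n p lam g hn hp hg hf hL x
    exact Pool.Agent.H44.LI.closed_of_iterate hp hr hX hU hn hg hf hL x
  · intro n lam G _ _ _ _ hne hn hf hL
    exact Pool.Agent.H44.LI.closed_of_group hr hX hU hn hf hL
  · intro d lam σ u hσ hL hu hu0 hodd x
    exact Pool.Agent.H44.LI.closed_of_odd hr hX hU hσ hL hu hu0 hodd x

end Pool.Agent.Results.MP_3eff7f_gt.FreeLipschitzActions
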