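import Pool.Agent.H44.LI.Turn

/-!
# Short periodic geodesics for circle actions by Lipschitz maps which are not isometries

`X` is a compact metric space in which any two points are joined by a minimal geodesic and minimal
geodesics between points at distance less than `r` are unique (every closed Riemannian manifold).
`ClosedGeod X L`: there is a periodic geodesic of positive length at most `L`. `CovDim X n`: the
covering dimension is at most `n`. Nothing is supposed to be an isometry.

1. Let `g t`, `t ∈ [0, 1]`, be a homotopy from the identity of `X` to an involution `σ = g 1` through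
   `lam`-Lipschitz maps, which moves the points of a set `P` with speed at most `l` (for `l = 0` the
   points of `P` are fixed). Let every point of `X` have a distance of at most `R` from `P`. Let `K` be
   a compact metric space of dimension at most `q` with an involution `τ`, and `f : K → X` a map with
   `f ∘ τ = σ ∘ f`. Then `f` is homotopic to a map `e` with `e ∘ τ = e`, or there is a periodic
   geodesic of length at most `(q + 1) (4 lam R + 2 l)`.
2. Let the circle act on `X`, not trivially, by `lam`-Lipschitz maps. Let `X` have dimension at most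
   `n`, and suppose that no map homotopic to the identity of `X` is invariant under a nontrivial
   involution (`NoInvariant`; this is so for every closed manifold, since the projection to the
   quotient by a nontrivial involution has degree zero modulo two). Let every point of `X` have a
   distance of at most `R` from points with orbits of speed at most `l / 2π`. Then there is a periodic
   geodesic of length at most `(n + 1) (4 lam R + l)`. So if the action has a fixed point, there is a
   periodic geodesic of length at most `4 (n + 1) lam diam X`.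

Proof. A curve `w k` from `f k` to `σ (f k) = f (τ k)` is built from `q + 1` excursions to `P`; at the
`j`-th visit of `P` the homotopy is advanced by the `j`-th weight of a partition of unity. The closed
curve `w k` followed by `w (τ k)` is the closed curve of `τ k` rotated by one half of its parameter.
The metric has no symmetry, but the Birkhoff curve shortening process commutes with the rotation of
the parameter. If there is no short periodic geodesic, the closed curves of `k` and of `τ k` are
contracted to the same point `e k`.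
-/

set_option autoImplicit false

open Set Topology Filter

namespace Pool.Agent.Results.MP_3eff7f_gt.LipschitzCircleActions

open Pool.Agent.Y489.GE Pool.Agent.H44.LI

/-- no map homotopic to the identity is invariant under a nontrivial involution -/
def NoInvariant (X : Type) [TopologicalSpace X] : Prop :=
  ∀ σ e : C(X, X), (∀ x, σ (σ x) = x) → e.Homotopic (ContinuousMap.id X) →
    (∀ x, e (σ x) = e x) → ∀ x, σ x = x

/-- rotations by rational multiples of the full angle are dense -/
theorem dyadic (θ : ℝ) : ∃ j : ℕ → ℤ, Tendsto (fun k : ℕ => (j k : ℝ) * (2 * Real.pi / 2 ^ k)) atTop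
    (𝓝 θ) := by
  refine ⟨fun k => ⌊θ / (2 * Real.pi / 2 ^ k)⌋, ?_⟩
  have hpos : ∀ k : ℕ, (0 : ℝ) < 2 * Real.pi / 2 ^ k := fun k => by
    have := Real.pi_pos
    positivity
  have h0 : Tendsto (fun k : ℕ => 2 * Real.pi / 2 ^ k) atTop (𝓝 0) := by
    have h1 : Tendsto (fun k : ℕ => 2 * Real.pi * (1 / 2) ^ k) atTop (𝓝 (2 * Real.pi * 0)) :=
      (tendsto_pow_atTop_nhds_zero_of_lt_one (by norm_num) (by norm_num)).const_mul _
    rw [mul_zero] at h1
    refine h1.congr fun k => ?_
    rw [one_div, inv_pow]
    rfl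
  rw [tendsto_iff_dist_tendsto_zero]
  refine squeeze_zero (fun k => dist_nonneg) (fun k => ?_) h0
  rw [Real.dist_eq, abs_sub_comm]
  have h1 := Int.floor_le (θ / (2 * Real.pi / 2 ^ k))
  have h2 := Int.lt_floor_add_one (θ / (2 * Real.pi / 2 ^ k))
  rw [le_div_iff₀ (hpos k)] at h1
  rw [div_lt_iff₀ (hpos k)] at h2
  rw [abs_of_nonneg (by linarith)]
  linarith

/-- an element of the circle which acts as a nontrivial involution -/
theorem exists_half (X : Type) [MetricSpace X] [MulAction Circle X] [ContinuousSMul Circle X]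
    (hne : ∃ (z : Circle) (x : X), z • x ≠ x) :
    ∃ θ : ℝ, 0 ≤ θ ∧ θ ≤ Real.pi ∧ (∃ x : X, Circle.exp θ • x ≠ x) ∧
      ∀ x : X, Circle.exp θ • Circle.exp θ • x = x := by
  by_contra hcon
  push Not at hcon
  have h1 : ∀ k : ℕ, ∀ x : X, Circle.exp (2 * Real.pi / 2 ^ k) • x = x := by
    intro k
    induction k with
    | zero => intro x; rw [pow_zero, div_one, Circle.exp_two_pi, one_smul]
    | succ k ih =>
      by_contra hx
      push Not at hx
      have hp := Real.pi_pos
      have h2k : (1 : ℝ) ≤ 2 ^ k := one_le_pow₀ (by norm_num)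
      obtain ⟨y, hy⟩ := hcon _ (by positivity) (by
        rw [div_le_iff₀ (by positivity), pow_succ]
        nlinarith) hx
      apply hy
      rw [← mul_smul, ← Circle.exp_add]
      have e : 2 * Real.pi / 2 ^ (k + 1) + 2 * Real.pi / 2 ^ (k + 1) = 2 * Real.pi / 2 ^ k := by
        rw [pow_succ]
        field_simp
        ring
      rw [e, ih]
  have h2 : ∀ (k : ℕ) (n : ℕ) (x : X), Circle.exp (n * (2 * Real.pi / 2 ^ k)) • x = x := by
    intro k n x
    induction n with
    | zero => rw [Nat.cast_zero, zero_mul, Circle.exp_zero, one_smul]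
    | succ n ih =>
      have e : ((n + 1 : ℕ) : ℝ) * (2 * Real.pi / 2 ^ k) =
          n * (2 * Real.pi / 2 ^ k) + 2 * Real.pi / 2 ^ k := by push_cast; ring
      rw [e, Circle.exp_add, mul_smul, h1, ih]
  have h3 : ∀ (k : ℕ) (j : ℤ) (x : X), Circle.exp (j * (2 * Real.pi / 2 ^ k)) • x = x := by
    intro k j x
    obtain ⟨n, rfl | rfl⟩ := j.eq_nat_or_neg
    · exact_mod_cast h2 k n x
    · have h4 := h2 k n x
      conv_lhs => rw [← h4]
      rw [← mul_smul, ← Circle.exp_add]
      have e : ((-(n : ℤ) : ℤ) : ℝ) * (2 * Real.pi / 2 ^ k) + n * (2 * Real.pi / 2 ^ k) = 0 := by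
        push_cast
        ring
      rw [e, Circle.exp_zero, one_smul]
  obtain ⟨z, x, hzx⟩ := hne
  apply hzx
  obtain ⟨j, hj⟩ := dyadic (z : ℂ).arg
  have h4 : Tendsto (fun k : ℕ => Circle.exp ((j k : ℝ) * (2 * Real.pi / 2 ^ k)) • x) atTop
      (𝓝 (Circle.exp (z : ℂ).arg • x)) := by
    have h5 : Continuous fun t : ℝ => Circle.exp t • x :=
      (map_continuous Circle.exp).smul continuous_const
    exact (h5.tendsto _).comp hj
  have h6 : Tendsto (fun k : ℕ => Circle.exp ((j k : ℝ) * (2 * Real.pi / 2 ^ k)) • x) atTop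
      (𝓝 x) := by
    simp only [h3]
    exact tendsto_const_nhds
  have h7 := tendsto_nhds_unique h4 h6
  rwa [Circle.exp_arg] at h7

/-- the time restricted to the unit interval -/
noncomputable def tt (t : ℝ) : ℝ := max 0 (min t 1)

theorem tt_mem (t : ℝ) : tt t ∈ Icc (0 : ℝ) 1 :=
  ⟨le_max_left _ _, max_le zero_le_one (min_le_right _ _)⟩

theorem tt_lip (s t : ℝ) : |tt s - tt t| ≤ |s - t| := by
  have h1 := le_abs_self (s - t)
  have h2 := neg_abs_le (s - t)
  rw [abs_le]
  unfold tt
  simp only [max_def, min_def]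
  split_ifs <;> constructor <;> linarith

theorem result (X : Type) [MetricSpace X] [CompactSpace X] (r : ℝ) (hr : 0 < r)
    (hX : GeodSpace X) (hU : UniqGeod X r) :
    (∀ (g : ℝ → X → X) (P : Set X) (lam l R : ℝ),
      ContinuousOn (fun z : ℝ × X => g z.1 z.2) (Icc (0 : ℝ) 1 ×ˢ univ) → (∀ x, g 0 x = x) →
      (∀ x, g 1 (g 1 x) = x) →
      (∀ t ∈ Icc (0 : ℝ) 1, ∀ x y, dist (g t x) (g t y) ≤ lam * dist x y) → 0 ≤ l →
      (∀ p ∈ P, ∀ s ∈ Icc (0 : ℝ) 1, ∀ t ∈ Icc (0 : ℝ) 1,
        dist (g s p) (g t p) ≤ l * |s - t|) →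
      (∀ x : X, ∃ p ∈ P, dist p x ≤ R) →
      ∀ (K : Type) [MetricSpace K] [CompactSpace K] (q : ℕ), CovDim K q →
      ∀ (τ : C(K, K)) (f : C(K, X)), (∀ k, τ (τ k) = k) → (∀ k, f (τ k) = g 1 (f k)) →
      (∃ e : C(K, X), (∀ k, e (τ k) = e k) ∧ f.Homotopic e) ∨
        ClosedGeod X ((q + 1) * (4 * lam * R + 2 * l))) ∧
    ∀ (n : ℕ) [MulAction Circle X] [ContinuousSMul Circle X] (P : Set X) (lam l R : ℝ),
      CovDim X n → NoInvariant X → (∃ (z : Circle) (x : X), z • x ≠ x) →
      (∀ (z : Circle) (x y : X), dist (z • x) (z • y) ≤ lam * dist x y) → 0 ≤ l →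
      (∀ p ∈ P, ∀ s t : ℝ, dist (Circle.exp s • p) (Circle.exp t • p) ≤
        l / (2 * Real.pi) * |s - t|) →
      (∀ x : X, ∃ p ∈ P, dist p x ≤ R) → ClosedGeod X ((n + 1) * (4 * lam * R + l)) := by
  have main : ∀ (g : ℝ → X → X) (P : Set X) (lam l R : ℝ),
      ContinuousOn (fun z : ℝ × X => g z.1 z.2) (Icc (0 : ℝ) 1 ×ˢ univ) → (∀ x, g 0 x = x) →
      (∀ x, g 1 (g 1 x) = x) →
      (∀ t ∈ Icc (0 : ℝ) 1, ∀ x y, dist (g t x) (g t y) ≤ lam * dist x y) → 0 ≤ l →
      (∀ p ∈ P, ∀ s ∈ Icc (0 : ℝ) 1, ∀ t ∈ Icc (0 : ℝ) 1,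
        dist (g s p) (g t p) ≤ l * |s - t|) →
      (∀ x : X, ∃ p ∈ P, dist p x ≤ R) →
      ∀ (K : Type) [MetricSpace K] [CompactSpace K] (q : ℕ), CovDim K q →
      ∀ (τ : C(K, K)) (f : C(K, X)), (∀ k, τ (τ k) = k) → (∀ k, f (τ k) = g 1 (f k)) →
      (∃ e : C(K, X), (∀ k, e (τ k) = e k) ∧ f.Homotopic e) ∨
        ClosedGeod X ((q + 1) * (4 * lam * R + 2 * l)) := by
    intro g P lam l R hc h0 h1 hL hl harc hR K _ _ q hK τ f hτ2 hfτ
    rw [or_iff_not_imp_right]
    intro hno
    have hturn : TurnS X (g 1) P lam l (fun t x => g (tt t) x) := by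
      have e0 : tt 0 = 0 := by unfold tt; norm_num
      have e1 : tt 1 = 1 := by unfold tt; norm_num
      refine ⟨?_, fun x => ?_, fun x => ?_, fun t x y => hL _ (tt_mem t) x y,
        fun z hz s t => (harc z hz _ (tt_mem s) _ (tt_mem t)).trans
          (mul_le_mul_of_nonneg_left (tt_lip s t) hl)⟩
      · have h2 : Continuous fun z : ℝ × X => (tt z.1, z.2) := by
          unfold tt
          fun_prop
        exact hc.comp_continuous h2 fun z => ⟨tt_mem _, mem_univ _⟩
      · show g (tt 0) x = x
        rw [e0, h0]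
      · show g (tt 1) x = g 1 x
        rw [e1]
    obtain ⟨e, he, H, a1, _, a3, a4, _⟩ := turn_principle hX hr hU hturn hl hR q K hK τ
      (map_continuous τ) hτ2 f (map_continuous f) hfτ hno
    have hec : Continuous e := by
      have : e = fun k => H k 1 := by
        funext k
        rw [a4 k 1 le_rfl]
      rw [this]
      exact a1.comp (continuous_id.prodMk continuous_const)
    refine ⟨⟨e, hec⟩, he, ⟨⟨⟨fun z => H z.2 z.1.1, ?_⟩, ?_, ?_⟩⟩⟩
    · exact a1.comp (continuous_snd.prodMk (continuous_subtype_val.comp continuous_fst))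
    · intro k
      exact a3 k 0 le_rfl
    · intro k
      exact a4 k 1 le_rfl
  refine ⟨main, ?_⟩
  intro n _ _ P lam l R hdim hess hne hL hl harc hR
  obtain ⟨θ, hθ0, hθπ, ⟨x₀, hx₀⟩, hθ⟩ := exists_half X hne
  have hp := Real.pi_pos
  have hcont : Continuous fun z : ℝ × X => Circle.exp (z.1 * θ) • z.2 :=
    ((map_continuous Circle.exp).comp (continuous_fst.mul continuous_const)).smul
      continuous_snd
  have hσc : Continuous fun x : X => Circle.exp θ • x := continuous_const_smul _
  rcases main (fun t x => Circle.exp (t * θ) • x) P lam (l / 2) R hcont.continuousOn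
    (fun x => by rw [zero_mul, Circle.exp_zero, one_smul])
    (fun x => by rw [one_mul]; exact hθ x) (fun t _ x y => hL _ x y) (by linarith)
    (fun p hp' s _ t _ => by
      refine (harc p hp' _ _).trans ?_
      rw [← sub_mul, abs_mul, abs_of_nonneg hθ0]
      have h1 : l / (2 * Real.pi) * θ ≤ l / 2 := by
        rw [div_mul_eq_mul_div, div_le_div_iff₀ (by positivity) (by norm_num)]
        nlinarith
      calc l / (2 * Real.pi) * (|s - t| * θ) = l / (2 * Real.pi) * θ * |s - t| := by ring
        _ ≤ l / 2 * |s - t| := mul_le_mul_of_nonneg_right h1 (abs_nonneg _)) hR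
    X n hdim ⟨fun x => Circle.exp θ • x, hσc⟩ (ContinuousMap.id X) hθ (fun k => by
      show Circle.exp θ • k = Circle.exp (1 * θ) • k
      rw [one_mul]) with h | h
  · obtain ⟨e, he, hh⟩ := h
    exact absurd (hess ⟨fun x => Circle.exp θ • x, hσc⟩ e hθ hh.symm he x₀) hx₀
  · have e : ((n : ℝ) + 1) * (4 * lam * R + 2 * (l / 2)) = (n + 1) * (4 * lam * R + l) := by ring
    rwa [e] at h

end Pool.Agent.Results.MP_3eff7f_gt.LipschitzCircleActions
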