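import Pool.Agent.H44.LI.Vol

/-!
# Short periodic geodesics and volume for metrics with a free Lipschitz action

`X` is a compact metric space of covering dimension at most `n` in which any two points are joined
by a minimal geodesic and minimal geodesics between points at distance less than `r` are unique
(every closed Riemannian `n`-manifold), `g` is a map of prime order `p` without fixed points all
iterates of which are `lam`-Lipschitz. Nothing is supposed to be an isometry. The volume is the
`n`-dimensional Hausdorff measure.

The hypothesis on the topology is that there is no equivariant map from `X` to the join of `n`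
copies of `ZMod p` (`JoinMap`: a map to the cone over the join which avoids the vertex), that is the
index of the action is as large as the dimension permits; for `p = 2` this holds as soon as there is
a map `j` from the unit sphere of dimension `n` to `X` with `j (-v) = g (j v)`, in particular for
every metric on the sphere for which the antipodal map is `lam`-Lipschitz.

There are constants `C`, `c` which depend only on `n`, `p`, `lam` such that

1. if all balls of some radius `R` have volume less than `c R ^ n`, there is a periodic geodesic of
   length at most `C R`;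
2. there is a periodic geodesic of length at most `C` times the `n`-th root of the volume.
-/

set_option autoImplicit false

open Set Topology MeasureTheory

namespace Pool.Agent.Results.MP_3eff7f_gt.VolumeFreeActions

open Pool.Agent.Y489.GE Pool.Agent.H44.LI

theorem result (n p : ℕ) (hn : 1 ≤ n) (hp : p.Prime) (lam : ℝ) (hlam : 1 ≤ lam) :
    ∃ C c : ℝ, 0 < C ∧ 0 < c ∧ ∀ (X : Type) [MetricSpace X] [CompactSpace X] [MeasurableSpace X]
      [BorelSpace X] (r : ℝ) (g : X → X), 0 < r → GeodSpace X → UniqGeod X r → CovDim X n →
      (∀ x, g^[p] x = x) → (∀ x, g x ≠ x) →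
      (∀ k < p, ∀ x y, dist (g^[k] x) (g^[k] y) ≤ lam * dist x y) →
      ((¬ ∃ v : X → Fin n → ZMod p → ℝ, JoinMap g n v) ∨
        (p = 2 ∧ ∃ j : EuclideanSpace ℝ (Fin (n + 1)) → X, ContinuousOn j {v | ‖v‖ = 1} ∧
          ∀ v, ‖v‖ = 1 → j (-v) = g (j v))) →
      (∀ R : ℝ, 0 < R →
        (∀ x : X, μH[(n : ℝ)] (Metric.closedBall x R) < ENNReal.ofReal (c * R ^ n)) →
        ClosedGeod X (C * R)) ∧
      (μH[(n : ℝ)] (univ : Set X) ≠ ⊤ →
        ClosedGeod X (C * (μH[(n : ℝ)] (univ : Set X)).toReal ^ (1 / (n : ℝ)))) := by
  obtain ⟨C, c, hC, hc, h⟩ := closed_of_volume n p hn hp lam hlam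
  refine ⟨C, c, hC, hc, ?_⟩
  intro X _ _ _ _ r g hr hX hU hdim hg hf hL hno
  refine h X r g hr hX hU hdim hg hf hL ?_
  rcases hno with hno | ⟨rfl, j, hj, hjo⟩
  · exact hno
  · rintro ⟨v, hv⟩
    exact no_joinMap_of_sphere hj hjo v hv

end Pool.Agent.Results.MP_3eff7f_gt.VolumeFreeActions
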